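import Pool.Agent.H99.CE.Targets

/-!
# The exact constant: the functions `Hf` and `Gf` (rows HFT, GLO, PHI, LNG)
-/

set_option autoImplicit false

open MeasureTheory ProbabilityTheory Filter Topology
open scoped ENNReal
open Pool.Agent.H95 Pool.Agent.H95.Cop Pool.Agent.H96.Cop Pool.Agent.H99.CE

namespace Pool.Agent.H54.CE

/-! ## Real inequalities -/

theorem glo_anti {t r θ : ℝ} (ht : 0 < t) (htr : t ≤ r) (hθ : θ < 1) :
    r ^ (θ - 1) ≤ t ^ (θ - 1) :=
  Real.rpow_le_rpow_of_nonpos ht htr (by linarith)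

theorem glo_split {r θ : ℝ} (hr : 0 < r) : r ^ θ = r ^ (θ - 1) * r := by
  rw [Real.rpow_sub_one hr.ne']
  field_simp

theorem glo_real {t θ r m : ℝ} (ht : 0 < t) (h0 : 0 < θ) (h1 : θ < 1) (hr : 0 < r)
    (hm : t ≤ m) : r ^ θ * Real.log (r / t) ≤
      m ^ θ * ((1 - θ) * Real.log (m / t)) +
        m ^ (θ - 1) * (θ * Real.log (m / t) + 1 / (1 - θ)) * r := by
  have hm0 : 0 < m := lt_of_lt_of_le ht hm
  have hl : 0 ≤ Real.log (m / t) := Real.log_nonneg (by rw [le_div_iff₀ ht]; linarith)
  obtain ⟨q, hq⟩ : ∃ q : ℝ, q = r / m := ⟨_, rfl⟩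
  have hq0 : 0 < q := by rw [hq]; positivity
  have hrq : r = m * q := by rw [hq]; field_simp
  have e1 : Real.log (r / t) = Real.log (m / t) + Real.log q := by
    rw [← Real.log_mul (by positivity) hq0.ne']
    congr 1
    rw [hrq]
    ring
  have e2 : r ^ θ = m ^ θ * q ^ θ := by
    rw [hrq, Real.mul_rpow hm0.le hq0.le]
  have e3 : m ^ (θ - 1) * r = m ^ θ * q := by
    rw [glo_split (r := m) (θ := θ) hm0, hrq]
    ring
  have b1 : q ^ θ ≤ 1 - θ + θ * q := by
    have h := rpow_one_add_le_one_add_mul_self (s := q - 1) (by linarith) h0.le h1.le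
    rw [show 1 + (q - 1) = q by ring] at h
    linarith
  have b2 : q ^ θ * Real.log q ≤ q / (1 - θ) := by
    have h := Real.log_le_rpow_div hq0.le (ε := 1 - θ) (by linarith)
    have h2 := mul_le_mul_of_nonneg_left h (Real.rpow_nonneg hq0.le θ)
    refine h2.trans (le_of_eq ?_)
    rw [← mul_div_assoc, ← Real.rpow_add hq0]
    rw [show θ + (1 - θ) = 1 by ring, Real.rpow_one]
  have b3 : q ^ θ * (Real.log (m / t) + Real.log q) ≤
      (1 - θ) * Real.log (m / t) + q * (θ * Real.log (m / t) + 1 / (1 - θ)) := by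
    have h := mul_le_mul_of_nonneg_right b1 hl
    have h2 : q * (1 / (1 - θ)) = q / (1 - θ) := by ring
    nlinarith
  have hmθ : 0 ≤ m ^ θ := Real.rpow_nonneg hm0.le θ
  have b4 := mul_le_mul_of_nonneg_left b3 hmθ
  rw [e1, e2]
  have e4 : m ^ (θ - 1) * (θ * Real.log (m / t) + 1 / (1 - θ)) * r =
      m ^ θ * (q * (θ * Real.log (m / t) + 1 / (1 - θ))) := by
    calc m ^ (θ - 1) * (θ * Real.log (m / t) + 1 / (1 - θ)) * r
        = (m ^ (θ - 1) * r) * (θ * Real.log (m / t) + 1 / (1 - θ)) := by ring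
      _ = _ := by rw [e3]; ring
  rw [e4]
  linarith

/-- the key inequality for the Lyapunov function -/
theorem phi_real {s v V : ℝ} (hs : 0 < s) (hv : 0 ≤ v) (hV : 0 ≤ V) :
    V * Real.exp (-(s * v)) ≤ max (V - v) 0 + 1 / s := by
  have h1 : Real.exp (-(s * v)) ≤ 1 / (1 + s * v) := by
    rw [Real.exp_neg, ← one_div]
    apply one_div_le_one_div_of_le (by positivity)
    linarith [Real.add_one_le_exp (s * v)]
  have h2 : V * Real.exp (-(s * v)) ≤ V / (1 + s * v) := by
    have h := mul_le_mul_of_nonneg_left h1 hV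
    rwa [mul_one_div] at h
  refine h2.trans ?_
  have hp : 0 < 1 + s * v := by positivity
  rw [div_le_iff₀ hp]
  rcases le_total v V with h | h
  · rw [max_eq_left (by linarith)]
    have h3 : (V - v + 1 / s) * (1 + s * v) = V + 1 / s + s * v * (V - v) := by
      field_simp
      ring
    rw [h3]
    have h4 : 0 ≤ s * v * (V - v) := mul_nonneg (by positivity) (by linarith)
    have h5 : 0 < 1 / s := by positivity
    linarith
  · rw [max_eq_right (by linarith), zero_add]
    have h3 : 1 / s * (1 + s * v) = 1 / s + v := by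
      field_simp
    rw [h3]
    have h5 : 0 < 1 / s := by positivity
    linarith

/-! ## The rows -/

theorem pf_HFT : T_HFT := by
  intro t θ x ht h0 h1
  refine ⟨min_le_right _ _, ?_, ?_⟩
  · intro hx
    unfold Hf
    rw [min_eq_right]
    by_cases hxt : x = ∞
    · rw [hxt, ENNReal.mul_top]
      · exact le_top
      · rw [Ne, ENNReal.ofReal_eq_zero, not_le]
        exact Real.rpow_pos_of_pos ht _
    · obtain ⟨r, hr⟩ : ∃ r : ℝ, r = x.toReal := ⟨_, rfl⟩
      have hxr : x = ENNReal.ofReal r := by rw [hr, ENNReal.ofReal_toReal hxt]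
      rw [hxr] at hx ⊢
      have hrt : t < r := (ENNReal.ofReal_lt_ofReal_iff_of_nonneg ht.le).1 hx
      have hr0 : 0 < r := ht.trans hrt
      rw [ENNReal.ofReal_rpow_of_pos hr0, ← ENNReal.ofReal_mul (by positivity)]
      apply ENNReal.ofReal_le_ofReal
      rw [glo_split (θ := θ) hr0]
      exact mul_le_mul_of_nonneg_right (glo_anti ht hrt.le h1) hr0.le
  · intro hx
    have hxt : x ≠ ∞ := ne_top_of_le_ne_top ENNReal.ofReal_ne_top hx
    obtain ⟨r, hr⟩ : ∃ r : ℝ, r = x.toReal := ⟨_, rfl⟩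
    have hxr : x = ENNReal.ofReal r := by rw [hr, ENNReal.ofReal_toReal hxt]
    have hr0 : 0 ≤ r := by rw [hr]; exact ENNReal.toReal_nonneg
    rcases hr0.eq_or_lt with h | h
    · rw [hxr, ← h, ENNReal.ofReal_zero]
      exact zero_le
    · rw [hxr] at hx ⊢
      have hrt : r ≤ t := (ENNReal.ofReal_le_ofReal_iff ht.le).1 hx
      rw [ENNReal.ofReal_rpow_of_pos h, ← ENNReal.ofReal_mul (by positivity)]
      apply ENNReal.ofReal_le_ofReal
      calc r = r ^ (1 - θ) * r ^ θ := by
            rw [← Real.rpow_add h, show 1 - θ + θ = 1 by ring, Real.rpow_one]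
        _ ≤ t ^ (1 - θ) * r ^ θ :=
            mul_le_mul_of_nonneg_right (Real.rpow_le_rpow h.le hrt (by linarith))
              (Real.rpow_nonneg h.le _)

theorem glo_coef {t θ m : ℝ} (ht : 0 < t) (h0 : 0 < θ) (h1 : θ < 1) (hm : t ≤ m) :
    0 ≤ m ^ θ * ((1 - θ) * Real.log (m / t)) ∧
      0 ≤ m ^ (θ - 1) * (θ * Real.log (m / t) + 1 / (1 - θ)) := by
  have hm0 : 0 < m := lt_of_lt_of_le ht hm
  have hl : 0 ≤ Real.log (m / t) := Real.log_nonneg (by rw [le_div_iff₀ ht]; linarith)
  have h2 : 0 < 1 - θ := by linarith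
  constructor
  · exact mul_nonneg (Real.rpow_nonneg hm0.le _) (mul_nonneg h2.le hl)
  · exact mul_nonneg (Real.rpow_nonneg hm0.le _)
      (add_nonneg (mul_nonneg h0.le hl) (by positivity))

theorem glo_term {t θ m r : ℝ} (ht : 0 < t) (h0 : 0 < θ) (h1 : θ < 1) (hm : t ≤ m)
    (hr : 0 ≤ r) : ENNReal.ofReal (m ^ θ * ((1 - θ) * Real.log (m / t))) +
      ENNReal.ofReal (m ^ (θ - 1) * (θ * Real.log (m / t) + 1 / (1 - θ))) * ENNReal.ofReal r =
      ENNReal.ofReal (m ^ θ * ((1 - θ) * Real.log (m / t)) +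
        m ^ (θ - 1) * (θ * Real.log (m / t) + 1 / (1 - θ)) * r) := by
  obtain ⟨c1, c2⟩ := glo_coef ht h0 h1 hm
  rw [← ENNReal.ofReal_mul c2, ← ENNReal.ofReal_add c1 (mul_nonneg c2 hr)]

theorem pf_GLO : T_GLO := by
  intro t θ x ht h0 h1 hxt
  obtain ⟨r, hr⟩ : ∃ r : ℝ, r = x.toReal := ⟨_, rfl⟩
  have hxr : x = ENNReal.ofReal r := by rw [hr, ENNReal.ofReal_toReal hxt]
  have hr0 : 0 ≤ r := by rw [hr]; exact ENNReal.toReal_nonneg
  rcases hr0.eq_or_lt with h | h
  · rw [hxr, ← h, ENNReal.ofReal_zero, ENNReal.zero_rpow_of_pos h0, zero_mul]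
    exact zero_le
  · unfold Gf lg
    rw [← hr]
    apply le_iInf
    rintro ⟨m, hm⟩
    simp only
    rw [hxr, glo_term ht h0 h1 hm hr0, ENNReal.ofReal_rpow_of_pos h,
      ← ENNReal.ofReal_mul (Real.rpow_nonneg hr0 _)]
    exact ENNReal.ofReal_le_ofReal (glo_real ht h0 h1 h hm)

theorem glo_upper {t θ m r : ℝ} (ht : 0 < t) (h0 : 0 < θ) (h1 : θ < 1) (hm : t ≤ m)
    (hr : 0 ≤ r) : Gf t θ (ENNReal.ofReal r) ≤
      ENNReal.ofReal (m ^ θ * ((1 - θ) * Real.log (m / t)) +
        m ^ (θ - 1) * (θ * Real.log (m / t) + 1 / (1 - θ)) * r) := by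
  rw [← glo_term ht h0 h1 hm hr]
  unfold Gf
  exact iInf_le (fun m : {m : ℝ // t ≤ m} =>
    ENNReal.ofReal (m.1 ^ θ * ((1 - θ) * Real.log (m.1 / t))) +
      ENNReal.ofReal (m.1 ^ (θ - 1) * (θ * Real.log (m.1 / t) + 1 / (1 - θ))) *
        ENNReal.ofReal r) ⟨m, hm⟩

theorem pf_PHI : T_PHI := by
  intro t t' θ A x ht htt' h0 h1 hA hxt
  have ht' : 0 < t' := lt_of_lt_of_le ht htt'
  have h1θ : 0 < 1 - θ := by linarith
  obtain ⟨r, hr⟩ : ∃ r : ℝ, r = x.toReal := ⟨_, rfl⟩
  have hxr : x = ENNReal.ofReal r := by rw [hr, ENNReal.ofReal_toReal hxt]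
  have hr0 : 0 ≤ r := by rw [hr]; exact ENNReal.toReal_nonneg
  rcases hr0.eq_or_lt with h | h
  · have hx0 : x = 0 := by rw [hxr, ← h, ENNReal.ofReal_zero]
    have hG : Gf t' θ x = 0 := by
      apply le_antisymm _ zero_le
      have h2 := glo_upper (r := 0) ht' h0 h1 le_rfl le_rfl
      rw [div_self ht'.ne', Real.log_one] at h2
      rw [hx0]
      simpa using h2
    have hH : Hf t' θ x = 0 := by
      unfold Hf
      rw [hx0, mul_zero]
      exact min_eq_left zero_le
    rw [hG, hH, mul_zero, mul_zero, add_zero]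
    exact zero_le
  · -- the right side
    have hV : 0 ≤ Real.log (t' / t) :=
      Real.log_nonneg (by rw [le_div_iff₀ ht]; linarith)
    have hrθ : 0 < r ^ θ := Real.rpow_pos_of_pos h θ
    have hR : x ^ θ * (ENNReal.ofReal A * lg t x + ENNReal.ofReal (2 * A / (1 - θ))) =
        ENNReal.ofReal (r ^ θ * (A * max (Real.log (r / t)) 0 + 2 * A / (1 - θ))) := by
      unfold lg
      rw [← hr, hxr, ENNReal.ofReal_rpow_of_pos h]
      have h2 : ENNReal.ofReal (Real.log (r / t)) =
          ENNReal.ofReal (max (Real.log (r / t)) 0) := by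
        rcases le_total (Real.log (r / t)) 0 with h3 | h3
        · rw [max_eq_right h3, ENNReal.ofReal_zero, ENNReal.ofReal_of_nonpos h3]
        · rw [max_eq_left h3]
      rw [h2, ← ENNReal.ofReal_mul hA, ← ENNReal.ofReal_add
        (mul_nonneg hA (le_max_right _ _)) (by positivity), ← ENNReal.ofReal_mul hrθ.le]
    rw [hR]
    have hH1 : Hf t' θ x ≤ ENNReal.ofReal (r ^ θ) := by
      refine (min_le_right _ _).trans ?_
      rw [hxr, ENNReal.ofReal_rpow_of_pos h]
    have hH2 : Hf t' θ x ≤ ENNReal.ofReal (t' ^ (θ - 1) * r) := by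
      refine (min_le_left _ _).trans ?_
      rw [hxr, ENNReal.ofReal_mul (by positivity)]
    rcases le_total t' r with hc | hc
    · -- large values
      have hG := glo_upper (m := r) ht' h0 h1 hc hr0
      have hl : 0 ≤ Real.log (r / t') := Real.log_nonneg (by rw [le_div_iff₀ ht']; linarith)
      have e1 : r ^ θ * ((1 - θ) * Real.log (r / t')) +
          r ^ (θ - 1) * (θ * Real.log (r / t') + 1 / (1 - θ)) * r =
          r ^ θ * (Real.log (r / t') + 1 / (1 - θ)) := by
        rw [glo_split (θ := θ) h]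
        ring
      rw [e1, ← hxr] at hG
      have e2 : Real.log (r / t) = Real.log (r / t') + Real.log (t' / t) := by
        rw [← Real.log_mul (by positivity) (by positivity)]
        congr 1
        field_simp
      calc ENNReal.ofReal A * Gf t' θ x +
            ENNReal.ofReal (A * Real.log (t' / t)) * Hf t' θ x
          ≤ ENNReal.ofReal A * ENNReal.ofReal (r ^ θ * (Real.log (r / t') + 1 / (1 - θ))) +
            ENNReal.ofReal (A * Real.log (t' / t)) * ENNReal.ofReal (r ^ θ) := by gcongr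
        _ = ENNReal.ofReal (A * (r ^ θ * (Real.log (r / t') + 1 / (1 - θ))) +
              A * Real.log (t' / t) * r ^ θ) := by
            rw [← ENNReal.ofReal_mul hA, ← ENNReal.ofReal_mul (mul_nonneg hA hV),
              ← ENNReal.ofReal_add]
            · exact mul_nonneg hA (mul_nonneg hrθ.le (by positivity))
            · exact mul_nonneg (mul_nonneg hA hV) hrθ.le
        _ ≤ _ := by
            apply ENNReal.ofReal_le_ofReal
            have h3 : Real.log (r / t) ≤ max (Real.log (r / t)) 0 := le_max_left _ _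
            have h4 : A * (r ^ θ * (Real.log (r / t') + 1 / (1 - θ))) +
                A * Real.log (t' / t) * r ^ θ =
                r ^ θ * (A * Real.log (r / t) + A / (1 - θ)) := by
              rw [e2]
              ring
            rw [h4]
            apply mul_le_mul_of_nonneg_left _ hrθ.le
            have h5 := mul_le_mul_of_nonneg_left h3 hA
            have h6 : 0 ≤ A / (1 - θ) := by positivity
            have h7 : 2 * A / (1 - θ) = A / (1 - θ) + A / (1 - θ) := by ring
            linarith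
    · -- small values
      have hG := glo_upper (m := t') ht' h0 h1 le_rfl hr0
      rw [div_self ht'.ne', Real.log_one, mul_zero, mul_zero, mul_zero, zero_add, zero_add,
        ← hxr] at hG
      obtain ⟨v, hv⟩ : ∃ v : ℝ, v = Real.log (t' / r) := ⟨_, rfl⟩
      have hv0 : 0 ≤ v := by
        rw [hv]
        exact Real.log_nonneg (by rw [le_div_iff₀ h]; linarith)
      have hE : t' ^ (θ - 1) * r = r ^ θ * Real.exp (-((1 - θ) * v)) := by
        have h2 : Real.exp (-((1 - θ) * v)) = (t' / r) ^ (θ - 1) := by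
          rw [Real.rpow_def_of_pos (by positivity), hv]
          congr 1
          ring
        rw [h2, Real.div_rpow ht'.le h.le, glo_split (θ := θ) h]
        have h3 : r ^ (θ - 1) ≠ 0 := (Real.rpow_pos_of_pos h _).ne'
        field_simp
      have hE1 : Real.exp (-((1 - θ) * v)) ≤ 1 := by
        rw [Real.exp_le_one_iff]
        nlinarith
      have hkey := phi_real h1θ hv0 hV
      have e2 : Real.log (r / t) = Real.log (t' / t) - v := by
        rw [hv, ← Real.log_div (by positivity) (by positivity)]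
        congr 1
        field_simp
      have hE0 : 0 < Real.exp (-((1 - θ) * v)) := Real.exp_pos _
      calc ENNReal.ofReal A * Gf t' θ x +
            ENNReal.ofReal (A * Real.log (t' / t)) * Hf t' θ x
          ≤ ENNReal.ofReal A * ENNReal.ofReal (t' ^ (θ - 1) * (1 / (1 - θ)) * r) +
            ENNReal.ofReal (A * Real.log (t' / t)) *
              ENNReal.ofReal (t' ^ (θ - 1) * r) := by gcongr
        _ = ENNReal.ofReal (A * (t' ^ (θ - 1) * (1 / (1 - θ)) * r) +
              A * Real.log (t' / t) * (t' ^ (θ - 1) * r)) := by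
            rw [← ENNReal.ofReal_mul hA, ← ENNReal.ofReal_mul (mul_nonneg hA hV),
              ← ENNReal.ofReal_add]
            · positivity
            · exact mul_nonneg (mul_nonneg hA hV) (by positivity)
        _ ≤ _ := by
            apply ENNReal.ofReal_le_ofReal
            have h4 : A * (t' ^ (θ - 1) * (1 / (1 - θ)) * r) +
                A * Real.log (t' / t) * (t' ^ (θ - 1) * r) =
                r ^ θ * (A * (Real.exp (-((1 - θ) * v)) * (1 / (1 - θ)) +
                  Real.log (t' / t) * Real.exp (-((1 - θ) * v)))) := by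
              have h5 : A * (t' ^ (θ - 1) * (1 / (1 - θ)) * r) +
                A * Real.log (t' / t) * (t' ^ (θ - 1) * r) =
                (t' ^ (θ - 1) * r) * (A * (1 / (1 - θ) + Real.log (t' / t))) := by ring
              rw [h5, hE]
              ring
            rw [h4]
            apply mul_le_mul_of_nonneg_left _ hrθ.le
            have h6 : Real.exp (-((1 - θ) * v)) * (1 / (1 - θ)) ≤ 1 * (1 / (1 - θ)) :=
              mul_le_mul_of_nonneg_right hE1 (by positivity)
            have h7 : Real.exp (-((1 - θ) * v)) * (1 / (1 - θ)) +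
                Real.log (t' / t) * Real.exp (-((1 - θ) * v)) ≤
                max (Real.log (r / t)) 0 + 2 * (1 / (1 - θ)) := by
              rw [e2]
              linarith
            have h8 := mul_le_mul_of_nonneg_left h7 hA
            have h9 : 2 * A / (1 - θ) = A * (2 * (1 / (1 - θ))) := by ring
            rw [h9]
            linarith

theorem pf_LNG : T_LNG := by
  intro K α c δ n1 k hα hc hδ hreg hk hnk D m hD hkm hDm hmD
  have hn : n1 ≤ m := by omega
  obtain ⟨-, h2⟩ := hreg m hn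
  have hk0 : (0 : ℝ) < k := by exact_mod_cast hk
  have hm : k * max (D - 1) 1 ≤ m := by
    rcases le_total (D - 1) 1 with h | h
    · rw [max_eq_right h]
      omega
    · rw [max_eq_left h, mul_comm]
      exact hDm.le
  have hmax : (0 : ℝ) < ((max (D - 1) 1 : ℕ) : ℝ) := by
    have : 0 < max (D - 1) 1 := lt_of_lt_of_le one_pos (le_max_right _ _)
    exact_mod_cast this
  have hm' : (k : ℝ) * ((max (D - 1) 1 : ℕ) : ℝ) ≤ m := by exact_mod_cast hm
  have h3 : (m : ℝ) ^ (-(1 + α)) ≤
      (k : ℝ) ^ (-(1 + α)) * ((max (D - 1) 1 : ℕ) : ℝ) ^ (-(1 + α)) := by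
    rw [← Real.mul_rpow hk0.le hmax.le]
    exact Real.rpow_le_rpow_of_nonpos (mul_pos hk0 hmax) hm' (by linarith)
  unfold gd wq pk
  rw [show (2⁻¹ : ℝ≥0∞) = ENNReal.ofReal 2⁻¹ by
    rw [ENNReal.ofReal_inv_of_pos (by norm_num)]
    simp, ← ENNReal.ofReal_mul (kk_nonneg K m)]
  apply ENNReal.ofReal_le_ofReal
  have h4 : (1 + δ) * c * (m : ℝ) ^ (-(1 + α)) ≤ (1 + δ) * c *
      ((k : ℝ) ^ (-(1 + α)) * ((max (D - 1) 1 : ℕ) : ℝ) ^ (-(1 + α))) :=
    mul_le_mul_of_nonneg_left h3 (by positivity)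
  have h5 := h2.trans h4
  calc kk K m * 2⁻¹ ≤ (1 + δ) * c *
        ((k : ℝ) ^ (-(1 + α)) * ((max (D - 1) 1 : ℕ) : ℝ) ^ (-(1 + α))) * 2⁻¹ :=
        mul_le_mul_of_nonneg_right h5 (by norm_num)
    _ = _ := by ring

end Pool.Agent.H54.CE
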